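import Mathlib
import Pool.Agent.L5helper27.MM.Fin2

/-!
# The endomorphisms of the middle cohomology decide the Mumford-Tate conjecture

Let `A` be an abelian variety of dimension `g` over a finitely generated subfield of `ℂ` without
factors of type IV, with the complex structure `J` on `H_1(A, ℝ)` and the polarization form `ψ`, in
a basis of `H_1(A, ℚ)` (indexed by `ι`), and let `ρ` be the action of the Galois group on the
`ℓ`-adic Tate module in this basis.  The hypothesis `Known` collects the known properties of `ρ`:
the Weil pairing, the theorems of Faltings, the Hodge-Tate cocharacter (Sen) and the theorem of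
Pink on the weak Hodge cocharacters.

Theorem: the Mumford-Tate group (over an algebraic closure of `ℚ_ℓ`) is contained in the connected
monodromy group if and only if every endomorphism of the Galois representation `H^g(A)` (over some
finite extension of the base field) is a combination of endomorphisms of the Hodge structure
`H^g(A)`.  The inclusion is the part of the Mumford-Tate conjecture that is not known (the other
inclusion is the theorem of Deligne).  So one piece of one cohomology group, the Tate classes in
`H^g(A) ⊗ H^g(A) ⊆ H^{2g}(A × A)`, decides the Mumford-Tate conjecture for `A`.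

The idea of the proof: the Lie algebra `𝔤` generated by the weak Hodge idempotents `p` is
reductive.  The `g`-th exterior power of the image of `p` is a line, and the `𝔤`-module it
generates in the `g`-th exterior power of the standard representation determines `[p, 𝔤]`.  The
projector to this module is an endomorphism of the Galois representation, so it is preserved by the
Lie algebra `𝔪` of the Mumford-Tate group, and a contraction gives `[p, 𝔪] ⊆ 𝔤`.
-/

namespace Pool.Agent.Results.MP_b8862a_ag.MiddleCohomology

open Pool.Agent.W528.ZC Pool.Agent.L5helper27.MM

/-- For an abelian variety without factors of type IV of dimension `g`, the Mumford-Tate group is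
contained in the connected `ℓ`-adic monodromy group if and only if the endomorphisms of the Galois
representation on the `g`-th exterior power are combinations of endomorphisms of the Hodge
structure. -/
theorem result {ι : Type} [Fintype ι] [DecidableEq ι] {g : ℕ} (hcard : Fintype.card ι = 2 * g)
    -- the polarization form and the complex structure
    (ψ : Matrix ι ι ℚ) (hψ : IsUnit ψ) (J : Matrix ι ι ℝ) (hJ : J * J = -1)
    (hJψ : J.transpose * mapQ ℝ ψ * J = mapQ ℝ ψ)
    -- no factors of type IV: the involution is trivial on the centre of the endomorphism algebra
    (hIV : ∀ z : Matrix ι ι ℚ, mapQ ℝ z * J = J * mapQ ℝ z →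
      (∀ e : Matrix ι ι ℚ, mapQ ℝ e * J = J * mapQ ℝ e → z * e = e * z) →
      z.transpose * ψ = ψ * z)
    -- the Galois representation
    (ℓ : ℕ) [Fact ℓ.Prime] {Γ : Type} [Group Γ] (ρ : Γ →* Matrix ι ι ℚ_[ℓ]) (χ : Γ →* ℚ_[ℓ])
    (hρ : Known (AlgebraicClosure ℚ_[ℓ]) ρ χ (mapQ ℚ_[ℓ] ψ)
      (mapQ ℚ_[ℓ] '' {e : Matrix ι ι ℚ | mapQ ℝ e * J = J * mapQ ℝ e})) :
    MTIn (AlgebraicClosure ℚ_[ℓ]) ρ J ↔ EndTate g ρ J :=
  ⟨fun h => endTate_of_mtIn h, fun h => mtIn_of_endTate hcard hψ hJ hJψ hIV hρ h⟩

end Pool.Agent.Results.MP_b8862a_ag.MiddleCohomology
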