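import Pool.Agent.L5helper29.OFS.Final
import Pool.Agent.L5helper29.OFL.Hundred

/-!
# Tate classes from one Frobenius element, for almost all members of a family over a number field

The last equality of the question (every Tate class is motivated) for `Z × A^k`, all `k`, given it for
`Z`, where `Z` is an ARBITRARY variety over a number field and `W = H^1(A)^∨` (`A` an abelian
variety, or `W` any sum of parts of odd weight `w_i` of the cohomology of arbitrary varieties, twisted by
`(w_i - 1) / 2`: these motives are not abelian) is the sum of the pieces `V i`: symplectic ones, and pairs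
of dual ones (unitary type), for instance the isotypic parts for a finite abelian group of
automorphisms.

(1) **One Frobenius element**.  Let the pieces be irreducible for all open subgroups of the Galois group
`Γ`, let the pieces of unitary type have dimension at least three.  If the multiplicative relations
between the eigenvalues of ONE Frobenius element `φ` on `W`, modulo its eigenvalues on the cohomology of
`Z`, are only the obvious ones (from the polarization and the determinants; a finite check for given
varieties, and implied by conditions on the Galois group of the characteristic polynomial), then all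
Tate classes in `H^1(A) ⊗ ... ⊗ H^1(A) ⊗ H^d(Z)`, all numbers of factors, are generated by the polarization
forms on the pieces and the Tate classes `det V_(C 1) ⊗ ... ⊗ det V_(C k) ⊗ v`; if all pieces are
symplectic then `k = 0` and this says that they are generated by the polarization and the Tate
classes of `Z`.  So if the projectors to the pieces and these classes are motivated then every
Tate class is.  (For abelian varieties the Tate classes `det V_(C 1) ⊗ ... ⊗ det V_(C k)` on the powers
of `A` are Hodge classes, as their Hodge-Tate weights are balanced, and so motivated by André; this is not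
needed in the theorem and not used.)  No hypothesis on the monodromy group, on bilinear Tate classes (as in
the theorem of Faltings), on inertia or on semisimplicity is made.  For powers of `Z` the same set `B`
of Frobenius eigenvalues can be used.

(2) **Almost all members, uniformly in `Z` and `ℓ`**.  For any family over a number field whose
reductions have equidistributed Frobenius elements (large monodromy: Deligne, Katz), (1) holds for all
but a proportion `ε` of the members of height at most `H`, for ALL primes `ℓ` (prime to one place) at
once: for `n ≥ n₀` and `H ≥ H₀`, and for each Galois-stable set `B` of at most `b` numbers, at most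
`ε · #(F H)` members `s` of `F H` fail, for ANY `ℓ` prime to the place number `n` and ANY of the
varieties `Z` whose Frobenius eigenvalues at this place are, up to powers, in the group generated by
`Q n` and `B`.  Here `n₀` depends only on `b` and `ε`, and `H₀` on `n`, `b` and `ε`, but not
on `Z`: the `Z` are arbitrary (of any dimension, for instance all powers of one variety `Z₀`), and can
have bad reduction at all other places.

Method: the Frobenius torus (Serre).  The relations show that the Lie algebra of operators killing the
Tate class contains a Cartan subalgebra `𝔥` of `∏ 𝔰𝔩(V_j) × ∏ 𝔰𝔭(V_i)`; it is stable under the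
conjugation by an open subgroup of `Γ`; with the irreducibility of the pieces it is everything, and
the first fundamental theorem for `SL` and `Sp` applies.  For (2): a sieve over the reductions,
with sets `B` varying with the place; the trick of `r`-tuples of members (an exceptional member would
halve the Galois group of `B`) makes the estimate uniform in `B`.

Known before: for abelian motives (André; Commelin 2019) and for products of them; that the members
outside a thin set have the monodromy of the generic member (Serre, Terasoma), for fixed `Z` and `ℓ`.  The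
starting file OneFrobeniusMumfordTate treats powers of one abelian variety (no `Z`, theorem of
Faltings as a hypothesis, conditions on slopes and real subfields).

Written with helper6, helper15, helper19, helper24, helper30, helper41, helper61, helper67, helper73.
-/

set_option autoImplicit false

namespace Pool.Agent.Results.MP_b8862a_ag.OneFrobenius

open Polynomial NumberField
open Pool.Agent.L5helper73.TC (Symp Coeff)
open Pool.Agent.L5helper29.OFS hiding Members hundred
open Pool.Agent.L5helper29.OFL

theorem result :
    (∀ (Γ : Type) [Group Γ] (w : ℕ) (ρ : Γ →* Matrix (Fin w) (Fin w) ℂ) (χ : Γ →* ℂˣ)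
      (E : Matrix (Fin w) (Fin w) ℂ) (J J' : Type) [Fintype J] [DecidableEq J] [Fintype J']
      [DecidableEq J'] (V : Idx J J' → Matrix (Fin w) (Fin w) ℂ),
      Symp ρ χ E → Coeff ρ E star V → Irr ρ V →
      ∀ (φ : Γ) (Q : ℕ) (A : J → Finset ℂ) (A' : J' → Finset ℂ), 1 < Q → (χ φ : ℂ) = Q →
      (∀ i, (V i).rank = (spec Q A A' i).card) → Eigen V (ρ φ) (spec Q A A') →
      (∀ j, 3 ≤ (A j).card) → (∀ i, ∀ x ∈ A' i, (Q : ℂ) / x ∈ A' i) →
      ∀ B : Finset ℂ, (∀ z ∈ B, z ≠ 0) → OnlyObvious Q A A' B → GeneratedFor ρ χ E V φ Q B) ∧
    ∀ (K : Type) [Field K] [NumberField K] (τ : K →+* ℂ) (Q : ℕ → ℕ) (J J' : Type)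
      [Fintype J] [DecidableEq J] [Fintype J'] [DecidableEq J'] (N : J → ℕ) (g : J' → ℕ)
      (S : ℕ → Type) [∀ n, Fintype (S n)] (P : ∀ n, S n → J → (𝓞 K)[X])
      (h : ∀ n, S n → J' → ℤ[X]) (δ : ℕ → J → 𝓞 K), BigFamily τ Q N g S P h δ →
      ∀ (Γ : Type) [Group Γ] (Λ : Type) (χ : Λ → Γ →* ℂˣ) (φ : ℕ → Γ) (ok : ℕ → Λ → Prop)
        (𝒮 : Type) (red : ∀ n, 𝒮 → S n → Prop) (w : ℕ)
        (ρ : 𝒮 → Λ → Γ →* Matrix (Fin w) (Fin w) ℂ) (E : 𝒮 → Λ → Matrix (Fin w) (Fin w) ℂ)
        (V : 𝒮 → Λ → Idx J J' → Matrix (Fin w) (Fin w) ℂ) (F : ℕ → Finset 𝒮),
        Members χ φ ok τ Q N g S P h red ρ E V → Spread S red F →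
        ∀ (b : ℕ) (ε : ℝ), 0 < ε → ∃ n₀ : ℕ, ∀ n ≥ n₀, ∃ H₀ : ℕ, ∀ H ≥ H₀, ∀ B : Finset ℂ,
          B.card ≤ b → (∀ z ∈ B, z ≠ 0) →
          (∀ σ : ℂ ≃+* ℂ, (∀ x, σ (τ x) = τ x) → ∀ z ∈ B, σ z ∈ B) →
          ({s | s ∈ F H ∧ ¬ ∀ ℓ, ok n ℓ →
              GeneratedFor (ρ s ℓ) (χ ℓ) (E s ℓ) (V s ℓ) (φ n) (Q n) B}.ncard : ℝ) ≤
            ε * (F H).card :=
  ⟨fun _ _ _ _ _ _ _ _ _ _ _ _ _ hS hC hI _ _ _ _ hQ hχ hr hE h3 hd _ hB h =>
    final1 hS hC hI hQ hχ hr hE h3 hd hB h,
  fun _ _ _ _ _ _ _ _ _ _ _ _ _ _ _ _ _ _ hF _ _ _ _ _ _ _ _ _ _ _ _ _ hM hsp b ε hε =>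
    hundred Pool.Agent.L5helper61.OF.extr Pool.Agent.L5helper67.OF.irred
      Pool.Agent.L5helper24.OF.gen Pool.Agent.L5helper29.OF.torus Pool.Agent.L5helper41.OF.bil uni
      hF hM hsp b ε hε⟩

end Pool.Agent.Results.MP_b8862a_ag.OneFrobenius
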