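import Pool.Agent.L5helper28.HL.MMain

/-!
# The motivic Galois group and the Mumford-Tate group of the products of an arbitrary variety with
varieties whose motives are generated by curves, abelian varieties, hypersurfaces and Calabi-Yau
threefolds with maximal Hodge groups

Let `T` be the Hodge theory `X ↦ H(X, ℚ)` on the smooth projective complex varieties, and let `X i` be a
family of smooth projective varieties of the following kinds (`IsSimple`):

* elliptic curves, with or without complex multiplication;
* varieties whose cohomology is generated by `H^1` and classes of algebraic cycles and whose Hodge group
  acts on `H^1` as the full symplectic group, for instance general curves of any genus, general abelian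
  varieties of any dimension, and projective bundles over them;
* varieties **of any odd dimension `w`** whose cohomology is the sum of `H^w` and of the space spanned by
  the classes of algebraic cycles and whose Hodge group acts on `H^w` as the full symplectic group, for
  instance very general hypersurfaces and complete intersections of odd dimension, and Calabi-Yau
  threefolds (with `h^{1,0} = h^{2,0} = 0`) with maximal Hodge group, among them all rigid ones without
  complex multiplication.

Suppose that **no two of them are isogenous** (`NonIsogenous`): there are no morphisms of Hodge
structures up to Tate twists between the cohomology of `X i` and `X j` in these degrees `w i`, `w j`.
Let `b i` be the Betti number of `X i` in degree `w i`.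

Let `Z` be an **arbitrary** smooth projective variety, and let `t = b(Z) - h(Z)` be the number of linearly
independent transcendental classes of `Z` (`b(Z)` is the total Betti number and `h(Z)` the number of
linearly independent Hodge classes). Then there is a finite set `S` of exceptional members such that
**the sum of their Betti numbers `b i` is at most `t`** (in particular no member with `b i > t` is
exceptional), with the following property. Let `P` be **any variety whose André motive is in the tensor
category generated by the motives of members which are not exceptional** (`MotiveFrom`: the smallest class of varieties which contains
these members and is closed under products and under direct summands of sums of Tate twists in the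
category of André motives). Let `Y` be any variety built from `Z` and from the exceptional members
(`Built`; for instance `Z`, a power of `Z`, a product of `Z` with exceptional members). Then

* **the motivic Galois group of `P` is the Mumford-Tate group of `H(P)`** (all Hodge classes on all
  powers of `P` are motivated);
* every motivated class on `P × Y` is a linear combination of products of motivated classes on `P` and
  on `Y` (`Kunneth`; applied to the powers of `P` and `Y`: up to the Tate motive the motivic
  Galois group of `P × Y` is the product of those of `P` and `Y`);
* **the motivic Galois group of `P × Y` is the Mumford-Tate group if and only if this is true for `Y`**;
* **if `dim Y ≤ 3` then all Hodge classes on `P × Y` are motivated**.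

Nothing is assumed on `P`, and only the theorem of Lefschetz on classes of type `(1, 1)` (`hL`) is used.
Nothing at all is assumed on `Z`: its motive need not be of abelian type.

The same is true, with `b i = 2` for all `i`, for every family of varieties which is **independent** (the
Hodge group of the product of finitely many different members is the product of their Hodge groups,
`Independent`, formulated with the Lie algebras) if the conjecture is true for every single `X i`: by the
theorem of André for instance for **all** independent families of abelian varieties.

A variety is built from some varieties if it is obtained from them in finitely many steps, where a
step is a product of two varieties, or any variety whose cohomology algebra is generated by the images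
of morphisms of Hodge structures (up to Tate twists) from the cohomology of varieties which have been
built already.

The proof. (1) Independence of the non-isogenous members, the exceptional members, and the Hodge
classes on the powers of a single member: see `MP_e12fcd_ag/ProductsWithAnyVariety`. (2) For products
of members in any order one collects the factors `X i` for one index `i` after the other; the Hodge
classes on `X_i ^ n × P'` are combinations of products since the elements of the Lie algebra which act
on the powers of `X i` in a given way and vanish on `P'` exist by independence. (3) Say that `R` is
dominated if for every variety `V` all Hodge classes on `R × V` are motivated as soon as this is true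
for the products of all words in the members with `V`. The dominated varieties are closed under
products, and under direct summands in the category of André motives by the exterior products of the
correspondences with the diagonal of `V`. (4) An orthogonality argument with the Hodge-Riemann relations
shows that the coefficients of a motivated class on `P × Y` are motivated.
-/

set_option autoImplicit false

namespace Pool.Agent.Results.MP_b8862a_ag.ProductsWithAnyMotive

open Pool.Agent.H914 Pool.Agent.Y121.AHS Pool.Agent.L5helper28 Pool.Agent.L5helper28.HG
open Pool.Agent.L5helper28.HI

universe u v

/-- **The motivated Mumford-Tate conjecture for products with an arbitrary variety.** -/
theorem result {k : Type u} [Field k] {𝒱 : VarClass k} {ops : CycleOps 𝒱} (T : HodgeTheory ops)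
    (hL : ∀ V, AlgebraicIn T V 1) {ι : Type v} (X : ι → 𝒱.Obj) (b : ι → ℕ)
    (hX : ∀ i, Polarised (coh T (X i)))
    (h : HL.NonIsogenous (fun i => coh T (X i)) b ∨
      Independent (fun i => coh T (X i)) ∧ ∀ i, b i = 2 ∧ MTIsMotivic T (X i)) (Z : 𝒱.Obj)
    (hZ : Polarised (coh T Z)) : ∃ S : Finset ι,
      ∑ i ∈ S, b i + hodgeNumber T Z ≤ betti T Z ∧ ∀ P Y : 𝒱.Obj,
      MotiveFrom T (X '' {i | i ∉ S}) P → Built T (insert Z (X '' {i | i ∈ S})) Y →
      IsNonzero (T.W.H P) →
        MTIsMotivic T P ∧ Kunneth T P Y ∧
        (MTIsMotivic T (P.prod Y) ↔ MTIsMotivic T Y) ∧
        (Y.dim ≤ 3 → AllMotivated T (P.prod Y)) :=
  HL.mot_main hL X b hX h Z hZ

end Pool.Agent.Results.MP_b8862a_ag.ProductsWithAnyMotive
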