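import Pool.Agent.L5helper71.CatMain

/-!
# The ℓ-adic half of the motivated Mumford-Tate conjecture relative to an arbitrary variety, for
# varieties which degenerate simultaneously

The second equality `G_mot,ℓ (M) = G(r_ℓ (M))°` of the motivated Mumford-Tate conjecture asks that all
Tate classes are motivated (combinations of motivated cycles in the sense of André). Here it is
considered for the motives generated by an arbitrary variety `Z` and by finitely many
odd-dimensional varieties `X_i`.

Let `W` be a Weil cohomology theory with algebraically closed coefficients on a class of smooth
proper varieties over a field `k`, for example étale cohomology with coefficients in the closure of
`ℚ_ℓ` on the smooth projective varieties over the algebraic closure of a finitely generated field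
`F ⊂ ℂ`, and let `Γ` be a group which acts on the cohomology of `Z` and of the `X_i` (the example: the
Galois group of `F`, and `Z`, `X_i` defined over `F`); `χ` is the action on the Tate twists.

Let the `X_i` be finitely many varieties of odd dimension for which homological and numerical
equivalence coincide (for example curves), on whose cohomology `Γ` acts like a Galois group, and whose
transcendental cohomology `T_i` (the orthogonal complement of all algebraic classes; for curves
`T_i = H^1(X_i)`) is in the middle degree and irreducible under all subgroups of finite index.
Assume:

* **(distinct)** for `i ≠ j` the representations `T_i` and `T_j` of `Γ` are not isomorphic up to scalars;
* **(small defects)** let `N` be the set of the `g ∈ Γ` with `χ(g) = 1` which act trivially on the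
  cohomology of `Z` and with `(g - 1) ^ 2 = 0` on all `T_j`. For every `i` some `g ∈ N` has defects on
  `T_i` without a common prime factor, or the defect two; here the defects of `g` are the rank of
  `g - 1` on `T_i` and the multiplicities of the nonzero eigenvalues of `(g - 1) (g' - 1)` on `T_i`,
  for `g' ∈ N`. (Or: the conjugates of some `g ∈ N` act irreducibly on `T_i` and the defects of all
  elements of `N` have no common prime factor.)

The elements of `N` are, for instance, the elements of the inertia groups at the places `v` of `F` at
which `Z` has good reduction and the curves `X_j` have stable reduction; all `X_j` may have bad
reduction at the same places, and the rank of the local monodromy may be large.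

**Theorem.** The following are equivalent:

* all Tate classes on all products of copies of `Z` are motivated;
* all Tate classes on all varieties dominated by products of copies of `Z` and of the `X_i` (in any
  order, with any action of `Γ` compatible with the projections) are motivated.

Nothing is assumed about `Z`. So the second equality for all motives in the tensor category
generated by `h(Z)` and the `h(X_i)` follows from the second equality for the motives in the category
generated by `h(Z)` alone. For abelian motives `Z` and `X_i` (where moreover the whole conjecture is
equivalent to the conjecture of Mumford and Tate) this is known by a theorem of Commelin; here `Z`
and `X_i` need not be of abelian type (for instance, `X_i` may be a hypersurface of odd dimension, or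
a Calabi-Yau threefold, as long as its algebraic classes satisfy homological = numerical
equivalence).

Proof. The motivated classes span a system of subspaces which contains the algebraic classes and is
stable under products, pull-backs and push-forwards. Let `Z'` be a product of copies of `Z`, and let
`L` be the Lie algebra of the operators on the sum of the `T_i` which kill all multilinear maps from
the `T_i` to the cohomology of `Z'` which are equivariant under a subgroup of finite index. It
contains the logarithms of the elements of `N`; by the theory of extremal elements and Goursat's
lemma it contains the symplectic Lie algebras of all `T_i` (starting library). By the first
fundamental theorem every Tate class on the product of `Z'` and of powers of the `X_i` is a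
combination of products of algebraic classes on the powers of the `X_i` with classes on `Z'`, and
these are Tate classes on `Z'`. Products in arbitrary order are isomorphic to such products: the
actions are transported along the exchange of factors, and restricted to the product without a
factor by the Künneth formula. For a dominated variety `g : T → B`, `g_* w = 1`:
`c = g_* (w g^* c)`.
-/

universe u

namespace Pool.Agent.Results.MP_b8862a_ag.TateMotivatedDegenerations

open Pool.Agent.H914 Pool.Agent.TH125.Gal Pool.Agent.V11219.Min Pool.Agent.L5helper71.Cat

/-- **Tate classes and motivated classes on products with varieties with simultaneous semistable
degenerations.** Let `X i` be a family as above over `Z`. All Tate classes on all varieties dominated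
by products of copies of `Z` and of the `X i` are motivated if and only if all Tate classes on all
products of copies of `Z` are motivated. -/
theorem result {k : Type u} [Field k] {𝒱 : VarClass k} {ops : CycleOps 𝒱}
    (W : WeilCohomology.{u, 0} ops) [IsAlgClosed W.K] {Γ : Type} [Group Γ] (χ : CharOf W Γ)
    {ι : Type} [Finite ι] (X : ι → GVar W Γ) (Z : GVar W Γ) (h : Family χ X Z) :
    AllMotivated χ X Z ↔ BaseMotivated χ Z :=
  all_sst h

end Pool.Agent.Results.MP_b8862a_ag.TateMotivatedDegenerations
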